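import Mathlib

/-!
# A strategically `k`-Menger space which is not `k`-Rothberger

The space is the unit interval with the topology consisting of the sets which are, near each of
their points, Euclidean neighbourhoods up to a countable set. All compact subsets are finite. The
second player has a winning strategy in `G_fin(K, K)`: by the compactness of the cube `[0,1]^n` she
can cover, in round `n`, all sets with `n` elements which avoid a countable set `C_n`, together with
any prescribed finite set, for which she takes the first points of the sets `C_j`, `j < n`. The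
space is not even covered by single sets chosen from the `k`-covers consisting of the Euclidean
open sets of small measure.
-/

set_option autoImplicit false

open Topology MeasureTheory

namespace Pool.Agent.Results.MP_c24ba3_gt.StrategicNotRothberger

/-- `KCov X` is the set of all `k`-covers of `X`: open covers such that every compact subset of `X`
is contained in a member (`X` itself may be a member). -/
def KCov (X : Type) [TopologicalSpace X] : Set (Set (Set X)) :=
  {𝓤 | (∀ U ∈ 𝓤, IsOpen U) ∧ ⋃₀ 𝓤 = Set.univ ∧ ∀ K : Set X, IsCompact K → ∃ U ∈ 𝓤, K ⊆ U}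

/-- `X` is `k`-Menger. -/
def KMenger (X : Type) [TopologicalSpace X] : Prop :=
  ∀ 𝓤 : ℕ → Set (Set X), (∀ n, 𝓤 n ∈ KCov X) →
    ∃ 𝓕 : ℕ → Set (Set X), (∀ n, (𝓕 n).Finite ∧ 𝓕 n ⊆ 𝓤 n) ∧ (⋃ n, 𝓕 n) ∈ KCov X

/-- `X` is `k`-Rothberger. -/
def KRothberger (X : Type) [TopologicalSpace X] : Prop :=
  ∀ 𝓤 : ℕ → Set (Set X), (∀ n, 𝓤 n ∈ KCov X) →
    ∃ U : ℕ → Set X, (∀ n, U n ∈ 𝓤 n) ∧ Set.range U ∈ KCov X

/-- The moves `𝓤 0, …, 𝓤 n` of the first player up to round `n`, as a list. -/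
def moves {X : Type} (𝓤 : ℕ → Set (Set X)) (n : ℕ) : List (Set (Set X)) :=
  (List.range (n + 1)).map 𝓤

/-- `X` is strategically `k`-Menger: the second player has a winning strategy `σ` in
`G_fin(K_X, K_X)`. The strategy assigns an answer to each finite sequence of moves of the first
player. -/
def StrategicallyKMenger (X : Type) [TopologicalSpace X] : Prop :=
  ∃ σ : List (Set (Set X)) → Set (Set X), ∀ 𝓤 : ℕ → Set (Set X), (∀ n, 𝓤 n ∈ KCov X) →
    (∀ n, (σ (moves 𝓤 n)).Finite ∧ σ (moves 𝓤 n) ⊆ 𝓤 n) ∧ (⋃ n, σ (moves 𝓤 n)) ∈ KCov X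

/-- `X` is strategically `k`-Rothberger: the second player has a winning strategy `σ` in
`G_1(K_X, K_X)`. -/
def StrategicallyKRothberger (X : Type) [TopologicalSpace X] : Prop :=
  ∃ σ : List (Set (Set X)) → Set X, ∀ 𝓤 : ℕ → Set (Set X), (∀ n, 𝓤 n ∈ KCov X) →
    (∀ n, σ (moves 𝓤 n) ∈ 𝓤 n) ∧ Set.range (fun n => σ (moves 𝓤 n)) ∈ KCov X

/-! ### The topology -/

/-- The topology on `Y` in which a set `W` is open if each point of `W` has a neighbourhood in the
old topology all but countably many points of which are in `W`. -/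
@[instance_reducible]
def cc (Y : Type) [TopologicalSpace Y] : TopologicalSpace Y where
  IsOpen W := ∀ x ∈ W, ∃ U : Set Y, IsOpen U ∧ x ∈ U ∧ (U \ W).Countable
  isOpen_univ := fun x _ => ⟨Set.univ, isOpen_univ, trivial, by simp⟩
  isOpen_inter W V hW hV x hx := by
    obtain ⟨U, hU, hxU, h⟩ := hW x hx.1
    obtain ⟨U', hU', hxU', h'⟩ := hV x hx.2
    refine ⟨U ∩ U', hU.inter hU', ⟨hxU, hxU'⟩, (h.union h').mono ?_⟩
    rintro y ⟨⟨h1, h2⟩, h3⟩
    by_cases h4 : y ∈ W
    · exact Or.inr ⟨h2, fun h5 => h3 ⟨h4, h5⟩⟩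
    · exact Or.inl ⟨h1, h4⟩
  isOpen_sUnion S hS x hx := by
    obtain ⟨W, hW, hxW⟩ := hx
    obtain ⟨U, hU, hxU, h⟩ := hS W hW x hxW
    exact ⟨U, hU, hxU, h.mono fun y hy => And.intro hy.1 fun h' => hy.2 (Set.mem_sUnion.2 ⟨W, hW, h'⟩)⟩

section

variable {Y : Type} [TopologicalSpace Y]

theorem isOpen_cc_iff {W : Set Y} : IsOpen[cc Y] W ↔
    ∀ x ∈ W, ∃ U : Set Y, IsOpen U ∧ x ∈ U ∧ (U \ W).Countable := Iff.rfl

theorem isOpen_cc_of_isOpen {U : Set Y} (hU : IsOpen U) : IsOpen[cc Y] U :=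
  fun _ hx => ⟨U, hU, hx, by simp⟩

theorem isOpen_cc_of_countable_compl {U : Set Y} (hU : Uᶜ.Countable) : IsOpen[cc Y] U :=
  fun _ _ => ⟨Set.univ, isOpen_univ, trivial, hU.mono fun _ hy => hy.2⟩

theorem t2_cc [T2Space Y] : @T2Space Y (cc Y) := by
  refine @T2Space.mk Y (cc Y) fun x y hxy => ?_
  obtain ⟨u, v, hu, hv, h⟩ := t2_separation hxy
  exact ⟨u, v, isOpen_cc_of_isOpen hu, isOpen_cc_of_isOpen hv, h⟩

theorem finite_of_isCompact_cc {K : Set Y} (hK : @IsCompact Y (cc Y) K) : K.Finite := by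
  by_contra hinf
  obtain ⟨f, hf⟩ := Set.Infinite.natEmbedding _ hinf
  let A : Set Y := Set.range fun i => (f i : Y)
  have hAc : A.Countable := Set.countable_range _
  obtain ⟨t, _, ht⟩ := @IsCompact.elim_nhds_subcover Y (cc Y) K hK (fun x => (A \ {x})ᶜ)
    (fun x _ => @IsOpen.mem_nhds Y (cc Y) x ((A \ {x})ᶜ)
      (isOpen_cc_of_countable_compl (by
        rw [compl_compl]; exact hAc.mono Set.sdiff_subset)) (fun h => h.2 rfl))
  have hA : A ⊆ t := by
    rintro _ ⟨i, rfl⟩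
    obtain ⟨x, hx, hx'⟩ := Set.mem_iUnion₂.1 (ht (f i).2)
    by_contra hne
    exact hx' ⟨⟨i, rfl⟩, fun h => hne (by
      have h' : (f i : Y) = x := h
      have hx'' : (f i : Y) ∈ t := h' ▸ hx
      exact hx'')⟩
  have hinf' : A.Infinite := Set.infinite_range_of_injective
    fun i j hij => hf (Subtype.ext hij)
  exact hinf' (t.finite_toSet.subset hA)

/-! ### The strategy of the second player -/

/-- The basic selection: for a `k`-cover `𝓤`, a number `n` and a finite set `E` there are a finite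
subfamily and a countable set `C`, given by an enumeration. -/
theorem exists_selection [CompactSpace Y] (y₀ : Y) (𝓤 : Set (Set Y))
    (h𝓤 : 𝓤 ∈ @KCov Y (cc Y)) (n : ℕ) (E : Set Y) (hE : E.Finite) :
    ∃ (𝓕 : Set (Set Y)) (c : ℕ → Y), 𝓕.Finite ∧ 𝓕 ⊆ 𝓤 ∧
      ∀ y : Fin n → Y, ∃ U ∈ 𝓕, (∀ i, y i ∉ Set.range c → y i ∈ U) ∧ E ⊆ U := by
  obtain ⟨hopen, _, hcov⟩ := h𝓤
  have h1 : ∀ x : Fin n → Y, ∃ U ∈ 𝓤, Set.range x ∪ E ⊆ U := fun x =>
    hcov _ (@Set.Finite.isCompact Y (cc Y) _ ((Set.finite_range x).union hE))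
  choose U hU hxU using h1
  have h2 : ∀ (x : Fin n → Y) (i : Fin n), ∃ V : Set Y, IsOpen V ∧ x i ∈ V ∧
      (V \ U x).Countable := fun x i => hopen _ (hU x) _ (hxU x (Or.inl ⟨i, rfl⟩))
  choose V hV hxV hVc using h2
  obtain ⟨t, _, ht⟩ := (isCompact_univ (X := Fin n → Y)).elim_nhds_subcover
    (fun x => Set.univ.pi (V x)) (fun x _ =>
      (isOpen_set_pi Set.finite_univ fun i _ => hV x i).mem_nhds fun i _ => hxV x i)
  let C : Set Y := ⋃ x ∈ t, ⋃ i, V x i \ U x
  have hC : C.Countable := by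
    refine Set.Countable.biUnion t.countable_toSet fun x _ => Set.countable_iUnion fun i => hVc x i
  obtain ⟨c, hc⟩ : ∃ c : ℕ → Y, C ⊆ Set.range c := by
    rcases C.eq_empty_or_nonempty with h | h
    · exact ⟨fun _ => y₀, by rw [h]; exact Set.empty_subset _⟩
    · obtain ⟨c, hc⟩ := hC.exists_eq_range h
      exact ⟨c, hc.le⟩
  refine ⟨U '' t, c, t.finite_toSet.image U, ?_, fun y => ?_⟩
  · rintro _ ⟨x, _, rfl⟩
    exact hU x
  · obtain ⟨x, hx, hy⟩ := Set.mem_iUnion₂.1 (ht (Set.mem_univ y))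
    refine ⟨U x, ⟨x, hx, rfl⟩, fun i hi => ?_, Set.subset_union_right.trans (hxU x)⟩
    by_contra hcon
    exact hi (hc (Set.mem_iUnion₂.2 ⟨x, hx, Set.mem_iUnion.2 ⟨i, hy i trivial, hcon⟩⟩))

/-- The finite set of the first points of the enumerations in the list `s`. -/
def firstPoints (s : List (ℕ → Y)) : Set Y := {y | ∃ c ∈ s, ∃ i < s.length, c i = y}

omit [TopologicalSpace Y] in
theorem finite_firstPoints (s : List (ℕ → Y)) : (firstPoints s).Finite := by
  have h : firstPoints s = ⋃ c ∈ {c | c ∈ s}, c '' {i | i < s.length} := by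
    ext y
    simp [firstPoints]
  rw [h]
  exact Set.Finite.biUnion (List.finite_toSet s) fun c _ => (Set.finite_lt_nat _).image c

theorem exists_answer [CompactSpace Y] (y₀ : Y) (s : List (ℕ → Y)) (𝓤 : Set (Set Y)) :
    ∃ p : Set (Set Y) × (ℕ → Y), 𝓤 ∈ @KCov Y (cc Y) → p.1.Finite ∧ p.1 ⊆ 𝓤 ∧
      ∀ y : Fin s.length → Y, ∃ U ∈ p.1, (∀ i, y i ∉ Set.range p.2 → y i ∈ U) ∧
        firstPoints s ⊆ U := by
  by_cases h : 𝓤 ∈ @KCov Y (cc Y)
  · obtain ⟨𝓕, c, h1, h2, h3⟩ := exists_selection y₀ 𝓤 h s.length _ (finite_firstPoints s)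
    exact ⟨(𝓕, c), fun _ => ⟨h1, h2, h3⟩⟩
  · exact ⟨(∅, fun _ => y₀), fun h' => absurd h' h⟩

theorem strategicallyKMenger_cc [CompactSpace Y] (y₀ : Y) : @StrategicallyKMenger Y (cc Y) := by
  choose a ha using exists_answer y₀
  -- the state is the list of the enumerations chosen so far and the last answer
  let step : List (ℕ → Y) × Set (Set Y) → Set (Set Y) → List (ℕ → Y) × Set (Set Y) :=
    fun p 𝓤 => (p.1 ++ [(a p.1 𝓤).2], (a p.1 𝓤).1)
  refine ⟨fun L => (L.foldl step ([], ∅)).2, fun 𝓤 h𝓤 => ?_⟩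
  let s : ℕ → List (ℕ → Y) := fun n => (((List.range n).map 𝓤).foldl step ([], ∅)).1
  have hstep : ∀ n, (moves 𝓤 n).foldl step ([], ∅) =
      (s n ++ [(a (s n) (𝓤 n)).2], (a (s n) (𝓤 n)).1) := by
    intro n
    simp only [moves, List.range_succ, List.map_append, List.foldl_append, List.map_cons,
      List.map_nil, List.foldl_cons, List.foldl_nil]
    rfl
  have hs : ∀ n, s (n + 1) = s n ++ [(a (s n) (𝓤 n)).2] := fun n => by
    have := congrArg Prod.fst (hstep n)
    exact this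
  have hlen : ∀ n, (s n).length = n := by
    intro n
    induction n with
    | zero => rfl
    | succ n ih => rw [hs, List.length_append, ih]; rfl
  have hA : ∀ n, (a (s n) (𝓤 n)).1.Finite ∧ (a (s n) (𝓤 n)).1 ⊆ 𝓤 n ∧
      ∀ y : Fin (s n).length → Y, ∃ U ∈ (a (s n) (𝓤 n)).1,
        (∀ i, y i ∉ Set.range (a (s n) (𝓤 n)).2 → y i ∈ U) ∧ firstPoints (s n) ⊆ U :=
    fun n => ha (s n) (𝓤 n) (h𝓤 n)
  have hσ : ∀ n, ((moves 𝓤 n).foldl step ([], ∅)).2 = (a (s n) (𝓤 n)).1 := fun n => by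
    rw [hstep]
  have hmem : ∀ n m, n < m → (a (s n) (𝓤 n)).2 ∈ s m := by
    intro n m hnm
    induction m with
    | zero => exact absurd hnm (Nat.not_lt_zero _)
    | succ m ih =>
      rw [hs, List.mem_append]
      rcases Nat.lt_succ_iff_lt_or_eq.1 hnm with h | h
      · exact Or.inl (ih h)
      · subst h
        exact Or.inr (List.mem_singleton_self _)
  simp only [hσ]
  refine ⟨fun n => ⟨(hA n).1, (hA n).2.1⟩, ?_⟩
  -- every finite set is covered
  have key : ∀ F : Set Y, F.Finite → ∃ U ∈ ⋃ n, (a (s n) (𝓤 n)).1, F ⊆ U := by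
    intro F hF
    let D : Set Y := ⋃ n, Set.range (a (s n) (𝓤 n)).2
    have h1 : ∀ x : Y, ∃ m : ℕ, x ∈ D → ∀ k, m ≤ k → x ∈ firstPoints (s k) := by
      intro x
      by_cases hx : x ∈ D
      · obtain ⟨n, i, hi⟩ := Set.mem_iUnion.1 hx
        refine ⟨max (n + 1) (i + 1), fun _ k hk => ⟨_, hmem n k ?_, i, ?_, hi⟩⟩
        · exact lt_of_lt_of_le (Nat.lt_succ_self n) ((le_max_left _ _).trans hk)
        · rw [hlen]
          exact lt_of_lt_of_le (Nat.lt_succ_self i) ((le_max_right _ _).trans hk)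
      · exact ⟨0, fun h => absurd h hx⟩
    choose m hm using h1
    obtain ⟨N, hN⟩ := (hF.image m).bddAbove
    let l : List Y := hF.toFinset.toList
    let k : ℕ := max N l.length
    obtain ⟨U, hU, hU1, hU2⟩ := (hA k).2.2 fun i => l.getD i y₀
    refine ⟨U, Set.mem_iUnion.2 ⟨k, hU⟩, fun x hx => ?_⟩
    by_cases hxD : x ∈ D
    · exact hU2 (hm x hxD k ((hN ⟨x, hx, rfl⟩).trans (le_max_left _ _)))
    · have hxl : x ∈ l := Finset.mem_toList.2 (hF.mem_toFinset.2 hx)
      obtain ⟨i, hi, hix⟩ := List.getElem_of_mem hxl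
      have hik : i < (s k).length := by
        rw [hlen]
        exact lt_of_lt_of_le hi (le_max_right _ _)
      have hval : l.getD ((⟨i, hik⟩ : Fin (s k).length) : ℕ) y₀ = x := by
        simp only [List.getD_eq_getElem?_getD, List.getElem?_eq_getElem hi, Option.getD_some, hix]
      have := hU1 ⟨i, hik⟩
      rw [hval] at this
      exact this fun h => hxD (Set.mem_iUnion.2 ⟨k, h⟩)
  refine ⟨?_, ?_, ?_⟩
  · intro U hU
    obtain ⟨n, hn⟩ := Set.mem_iUnion.1 hU
    exact (h𝓤 n).1 U ((hA n).2.1 hn)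
  · refine Set.eq_univ_of_forall fun x => ?_
    obtain ⟨U, hU, hxU⟩ := key {x} (Set.finite_singleton x)
    exact ⟨U, hU, hxU rfl⟩
  · exact fun K hK => key K (finite_of_isCompact_cc hK)

end

/-! ### The unit interval -/

theorem not_kRothberger : ¬ @KRothberger unitInterval (cc unitInterval) := by
  intro h
  obtain ⟨ε, hε, hsum⟩ := ENNReal.exists_pos_sum_of_countable (one_ne_zero (α := ENNReal)) ℕ
  let 𝓤 : ℕ → Set (Set unitInterval) := fun n => {U | IsOpen U ∧ volume U < ε n}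
  have hcov : ∀ n, ∀ K : Set unitInterval, K.Finite → ∃ U ∈ 𝓤 n, K ⊆ U := by
    intro n K hK
    have h0 : (volume K : ENNReal) < ε n := by
      rw [hK.measure_zero]
      exact_mod_cast hε n
    obtain ⟨U, hKU, hU, hUε⟩ := K.exists_isOpen_lt_of_lt _ h0
    exact ⟨U, ⟨hU, hUε⟩, hKU⟩
  obtain ⟨U, hU, _, hcovU, _⟩ := h 𝓤 fun n => by
    refine ⟨fun U hU => isOpen_cc_of_isOpen hU.1, Set.eq_univ_of_forall fun x => ?_,
      fun K hK => hcov n K (finite_of_isCompact_cc hK)⟩
    obtain ⟨U, hU, hxU⟩ := hcov n {x} (Set.finite_singleton x)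
    exact ⟨U, hU, hxU rfl⟩
  have h1 : (1 : ENNReal) ≤ ∑' n, (ε n : ENNReal) := by
    calc (1 : ENNReal) = volume (Set.univ : Set unitInterval) := by simp
      _ = volume (⋃ n, U n) := by rw [← hcovU, Set.sUnion_range]
      _ ≤ ∑' n, volume (U n) := measure_iUnion_le _
      _ ≤ ∑' n, (ε n : ENNReal) := ENNReal.tsum_le_tsum fun n => (hU n).2.le
  exact absurd h1 (not_le.2 hsum)

theorem kMenger_of_strategically {X : Type} [TopologicalSpace X] (h : StrategicallyKMenger X) :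
    KMenger X := by
  obtain ⟨σ, hσ⟩ := h
  exact fun 𝓤 h𝓤 => ⟨fun n => σ (moves 𝓤 n), hσ 𝓤 h𝓤⟩

theorem kRothberger_of_strategically {X : Type} [TopologicalSpace X]
    (h : StrategicallyKRothberger X) : KRothberger X := by
  obtain ⟨σ, hσ⟩ := h
  exact fun 𝓤 h𝓤 => ⟨fun n => σ (moves 𝓤 n), hσ 𝓤 h𝓤⟩

/-- There is a Hausdorff space which is strategically `k`-Menger, hence `k`-Menger, but is not
`k`-Rothberger, hence not strategically `k`-Rothberger. -/
theorem result : ∃ (X : Type) (_ : TopologicalSpace X), T2Space X ∧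
    (KMenger X ∧ ¬ KRothberger X) ∧
    (StrategicallyKMenger X ∧ ¬ StrategicallyKRothberger X) := by
  refine ⟨unitInterval, cc unitInterval, t2_cc, ⟨?_, not_kRothberger⟩, ?_, ?_⟩
  · exact @kMenger_of_strategically _ (cc unitInterval) (strategicallyKMenger_cc 0)
  · exact strategicallyKMenger_cc 0
  · exact fun h => not_kRothberger (@kRothberger_of_strategically _ (cc unitInterval) h)

end Pool.Agent.Results.MP_c24ba3_gt.StrategicNotRothberger
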